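import Mathlib

set_option autoImplicit false

open Set Matroid

namespace Pool.Agent.Work.MP_f3d170_co_h45

/-- The matroids of rank `r` with ground set `Fin n = {0, …, n-1}`. -/
def RankMatroid (n r : ℕ) : Type := {M : Matroid (Fin n) // M.E = Set.univ ∧ M.eRank = r}

/-- Isomorphism: some permutation `σ` of the ground set carries the independent sets of `M`
exactly to the independent sets of `N`. -/
def Iso {n : ℕ} (M N : Matroid (Fin n)) : Prop :=
  ∃ σ : Equiv.Perm (Fin n), ∀ I : Set (Fin n), M.Indep I ↔ N.Indep (σ '' I)

/-- `𝒩` contains exactly one representative of each isomorphism class of matroids of rank `r`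
with `n` elements. -/
def IsTransversal {n r : ℕ} (𝒩 : Finset (RankMatroid n r)) : Prop :=
  ∀ M : RankMatroid n r, ∃! N : RankMatroid n r, N ∈ 𝒩 ∧ Iso M.1 N.1

/-- The number of bases. -/
noncomputable def numBases {n : ℕ} (M : Matroid (Fin n)) : ℕ := {B | M.IsBase B}.ncard

/-- The number of circuits (loops are circuits with one element). -/
noncomputable def numCircuits {n : ℕ} (M : Matroid (Fin n)) : ℕ := {C | M.IsCircuit C}.ncard

end Pool.Agent.Work.MP_f3d170_co_h45
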