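import Mathlib

set_option autoImplicit false

open Set Matroid

namespace Pool.Agent.Work.MP_f3d170_co_h45

variable {α : Type*} [Finite α]

/-- The flats of rank `j`: closures of independent sets with `j` elements. -/
def flatsOf (N : Matroid α) (j : ℕ) : Set (Set α) :=
  {F | ∃ I, N.Indep I ∧ I.ncard = j ∧ N.closure I = F}

/-- The set of non-loops. -/
def nonloops (N : Matroid α) : Set α := {e | N.IsNonloop e}

omit [Finite α] in
lemma ncard_eq_of_isBasis {N : Matroid α} {I J X : Set α} (hI : N.IsBasis I X)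
    (hJ : N.IsBasis J X) : I.ncard = J.ncard := by
  have h : I.encard = J.encard := by rw [hI.encard_eq_eRk, hJ.encard_eq_eRk]
  simp [Set.ncard, h]

lemma exists_insert {N : Matroid α} {i : ℕ} {J H : Set α} (hJ : N.Indep J) (hJi : J.ncard = i)
    (hH : H ∈ flatsOf N (i + 1)) (hJH : N.closure J ⊆ H) :
    ∃ y, y ∉ J ∧ N.IsNonloop y ∧ N.closure (insert y J) = H := by
  obtain ⟨I, hI, hIc, rfl⟩ := hH
  have hJs : J ⊆ N.closure I := (N.subset_closure J hJ.subset_ground).trans hJH
  obtain ⟨J', hJ', hJJ'⟩ := hJ.subset_isBasis_of_subset hJs (N.closure_subset_ground I)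
  have hcard : J'.ncard = i + 1 := by
    rw [← hIc]; exact ncard_eq_of_isBasis hJ' hI.isBasis_closure
  have hd : (J' \ J).ncard = 1 := by
    have := Set.ncard_sdiff_add_ncard_of_subset hJJ' (Set.toFinite _)
    omega
  obtain ⟨y, hy⟩ := Set.ncard_eq_one.1 hd
  have hyJ' : y ∈ J' \ J := by rw [hy]; rfl
  refine ⟨y, hyJ'.2, hJ'.indep.isNonloop_of_mem hyJ'.1, ?_⟩
  have : insert y J = J' := by
    rw [← Set.union_sdiff_cancel hJJ', hy]
    rw [Set.union_singleton]
  rw [this, hJ'.closure_eq_closure, Matroid.closure_closure]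

/-- Double counting of pairs of flats of consecutive ranks. -/
theorem flats_step (N : Matroid α) (i : ℕ) :
    (flatsOf N (i + 1)).ncard * (i + 1) ≤ (flatsOf N i).ncard * ((nonloops N).ncard - i) := by
  classical
  have hfin : ∀ S : Set (Set α), S.Finite := fun S => Set.toFinite S
  rcases isEmpty_or_nonempty α with he | hne
  · have h0 : flatsOf N (i + 1) = ∅ := by
      ext F
      simp only [flatsOf, Set.mem_ofPred_eq, Set.mem_empty_iff_false, iff_false]
      rintro ⟨I, -, hIc, -⟩
      rw [Set.eq_empty_of_isEmpty I, Set.ncard_empty] at hIc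
      omega
    simp [h0]
  rw [Set.ncard_eq_toFinset_card _ (hfin (flatsOf N (i + 1))),
    Set.ncard_eq_toFinset_card _ (hfin (flatsOf N i))]
  refine Finset.card_mul_le_card_mul (fun H L => L ⊆ H) ?_ ?_
  · intro H hH
    rw [Set.Finite.mem_toFinset] at hH
    obtain ⟨I, hI, hIc, rfl⟩ := hH
    rw [← hIc, Set.ncard_eq_toFinset_card _ (Set.toFinite I)]
    refine Finset.card_le_card_of_injOn (fun f => N.closure (I \ {f})) ?_ ?_
    · intro f hf
      simp only [Set.Finite.coe_toFinset] at hf
      simp only [Finset.mem_coe, Finset.mem_bipartiteAbove, Set.Finite.mem_toFinset]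
      refine ⟨⟨I \ {f}, hI.subset Set.sdiff_subset, ?_, rfl⟩,
        N.closure_subset_closure Set.sdiff_subset⟩
      rw [Set.ncard_sdiff_singleton_of_mem hf]; omega
    · intro f hf g hg hfg
      simp only [Set.Finite.coe_toFinset] at hf hg
      by_contra hne
      have h1 := hI.notMem_closure_sdiff_of_mem hf
      apply h1
      simp only at hfg
      rw [hfg]
      exact N.mem_closure_of_mem (X := I \ {g}) ⟨hf, hne⟩
        (Set.sdiff_subset.trans hI.subset_ground)
  · intro L hL
    rw [Set.Finite.mem_toFinset] at hL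
    obtain ⟨J, hJ, hJc, rfl⟩ := hL
    have hJn : J ⊆ nonloops N := fun x hx => hJ.isNonloop_of_mem hx
    have hc : (nonloops N).ncard - i = (nonloops N \ J).ncard := by
      rw [Set.ncard_sdiff hJn (Set.toFinite _), hJc]
    rw [hc, Set.ncard_eq_toFinset_card _ (Set.toFinite (nonloops N \ J))]
    have key : ∀ H : Set α, ∃ y, H ∈ flatsOf N (i + 1) → N.closure J ⊆ H →
        y ∉ J ∧ N.IsNonloop y ∧ N.closure (insert y J) = H := by
      intro H
      by_cases h : H ∈ flatsOf N (i + 1) ∧ N.closure J ⊆ H
      · obtain ⟨y, hy⟩ := exists_insert hJ hJc h.1 h.2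
        exact ⟨y, fun _ _ => hy⟩
      · exact ⟨Classical.arbitrary α, fun h1 h2 => absurd ⟨h1, h2⟩ h⟩
    choose y hy using key
    refine Finset.card_le_card_of_injOn y ?_ ?_
    · intro H hH
      simp only [Finset.mem_coe, Finset.mem_bipartiteBelow, Set.Finite.mem_toFinset] at hH
      have := hy H hH.1 hH.2
      simp only [Set.Finite.coe_toFinset]
      exact ⟨this.2.1, this.1⟩
    · intro H hH H' hH' hyy
      simp only [Finset.mem_coe, Finset.mem_bipartiteBelow, Set.Finite.mem_toFinset] at hH hH'
      rw [← (hy H hH.1 hH.2).2.2, ← (hy H' hH'.1 hH'.2).2.2, hyy]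

/-- Exchanging a non-loop `y` of the closure of `I` into `I`. -/
lemma exists_exchange {N : Matroid α} {I : Set α} {y : α} (hI : N.Indep I)
    (hy : y ∈ N.closure I) (hyI : y ∉ I) (hyl : N.IsNonloop y) :
    ∃ f ∈ I, N.Indep (insert y (I \ {f})) ∧ N.closure (insert y (I \ {f})) = N.closure I := by
  have hIb : N.IsBasis I (insert y I) := by
    rw [isBasis_iff_indep_subset_closure]
    exact ⟨hI, Set.subset_insert _ _, Set.insert_subset hy (N.subset_closure I hI.subset_ground)⟩
  obtain ⟨J, hJ, hyJ⟩ := (indep_singleton.2 hyl).subset_isBasis_of_subset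
    (Set.singleton_subset_iff.2 (Set.mem_insert y I)) hIb.subset_ground
  have hyJ' : y ∈ J := hyJ rfl
  have hc : J.ncard = I.ncard := ncard_eq_of_isBasis hJ hIb
  have hex : ∃ f ∈ I, f ∉ J := by
    by_contra hcon
    push Not at hcon
    have hss : insert y I ⊆ J := Set.insert_subset hyJ' hcon
    have := Set.ncard_le_ncard hss (Set.toFinite _)
    rw [Set.ncard_insert_of_notMem hyI (Set.toFinite _)] at this
    omega
  obtain ⟨f, hfI, hfJ⟩ := hex
  have hJeq : J = insert y (I \ {f}) := by
    refine Set.eq_of_subset_of_ncard_le ?_ ?_ (Set.toFinite _)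
    · intro x hx
      rcases hJ.subset hx with h | h
      · exact Or.inl h
      · exact Or.inr ⟨h, fun hxf => hfJ (hxf ▸ hx)⟩
    · rw [Set.ncard_insert_of_notMem (fun h => hyI h.1) (Set.toFinite _),
        Set.ncard_sdiff_singleton_of_mem hfI]
      have : 0 < I.ncard := (Set.ncard_pos (Set.toFinite _)).2 ⟨f, hfI⟩
      omega
  refine ⟨f, hfI, hJeq ▸ hJ.indep, ?_⟩
  rw [← hJeq, hJ.closure_eq_closure, ← hIb.closure_eq_closure]

/-- A lower bound for the number of bases in terms of the number of hyperplanes. -/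
theorem bases_ge (N : Matroid α) (hE : N.E = Set.univ) (j : ℕ) (hr : N.eRank = (j + 1 : ℕ)) :
    (flatsOf N j).ncard * ((nonloops N).ncard - j) ≤ {B | N.IsBase B}.ncard * (j + 1) := by
  classical
  have hfin : ∀ S : Set (Set α), S.Finite := fun S => Set.toFinite S
  rw [Set.ncard_eq_toFinset_card _ (hfin (flatsOf N j)),
    Set.ncard_eq_toFinset_card _ (hfin {B | N.IsBase B})]
  have hbc : ∀ B, N.IsBase B → B.ncard = j + 1 := by
    intro B hB
    have h := hB.encard_eq_eRank
    rw [hr] at h
    simp only [Set.ncard, h]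
    rfl
  have hbase : ∀ B, N.Indep B → B.ncard = j + 1 → N.IsBase B := by
    intro B hB hc
    refine hB.isBase_of_eRk_ge (Set.toFinite _) ?_
    rw [hB.eRk_eq_encard, hr, ← (Set.toFinite B).cast_ncard_eq, hc]
  have hbneq : ∀ I, N.Indep I → I.ncard = j → ∃ x, x ∉ N.closure I := by
    intro I hI hc
    by_contra hcon
    push Not at hcon
    have : N.IsBase I := by
      refine hI.isBase_of_ground_subset_closure ?_
      intro x _; exact hcon x
    have := hbc I this
    omega
  refine Finset.card_mul_le_card_mul (fun H B => ∃ x ∈ B, N.closure (B \ {x}) = H) ?_ ?_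
  · intro H hH
    rw [Set.Finite.mem_toFinset] at hH
    obtain ⟨I, hI, hIc, rfl⟩ := hH
    obtain ⟨x₀, hx₀⟩ := hbneq I hI hIc
    have hIn : I ⊆ nonloops N := fun x hx => hI.isNonloop_of_mem hx
    have hc : (nonloops N).ncard - j = (nonloops N \ I).ncard := by
      rw [Set.ncard_sdiff hIn (Set.toFinite _), hIc]
    rw [hc, Set.ncard_eq_toFinset_card _ (Set.toFinite (nonloops N \ I))]
    -- exchange element
    have key : ∀ y, ∃ f, y ∈ N.closure I → y ∉ I → N.IsNonloop y →
        f ∈ I ∧ N.Indep (insert y (I \ {f})) ∧ N.closure (insert y (I \ {f})) = N.closure I := by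
      intro y
      by_cases h : y ∈ N.closure I ∧ y ∉ I ∧ N.IsNonloop y
      · obtain ⟨f, hf⟩ := exists_exchange hI h.1 h.2.1 h.2.2
        exact ⟨f, fun _ _ _ => hf⟩
      · exact ⟨x₀, fun h1 h2 h3 => absurd ⟨h1, h2, h3⟩ h⟩
    choose f hf using key
    have hIcl : I ⊆ N.closure I := N.subset_closure I hI.subset_ground
    have hx₀I : x₀ ∉ I := fun h => hx₀ (hIcl h)
    refine Finset.card_le_card_of_injOn
      (fun y => if y ∈ N.closure I then insert x₀ (insert y (I \ {f y})) else insert y I) ?_ ?_
    · intro y hy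
      simp only [Set.Finite.coe_toFinset] at hy
      obtain ⟨hyn, hyI⟩ := hy
      simp only [Finset.mem_coe, Finset.mem_bipartiteAbove, Set.Finite.mem_toFinset]
      by_cases hycl : y ∈ N.closure I
      · rw [if_pos hycl]
        obtain ⟨hfI, hind, hcl⟩ := hf y hycl hyI hyn
        set I' := insert y (I \ {f y}) with hI'
        have hx₀cl : x₀ ∉ N.closure I' := by rw [hcl]; exact hx₀
        have hx₀I' : x₀ ∉ I' := fun h => hx₀cl (N.subset_closure I' hind.subset_ground h)
        have hI'c : I'.ncard = j := by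
          rw [hI', Set.ncard_insert_of_notMem (fun h => hyI h.1) (Set.toFinite _),
            Set.ncard_sdiff_singleton_of_mem hfI]
          have : 0 < I.ncard := (Set.ncard_pos (Set.toFinite _)).2 ⟨f y, hfI⟩
          omega
        refine ⟨hbase _ ?_ ?_, x₀, Set.mem_insert _ _, ?_⟩
        · rw [hind.insert_indep_iff_of_notMem hx₀I']
          exact ⟨hE ▸ Set.mem_univ _, hx₀cl⟩
        · rw [Set.ncard_insert_of_notMem hx₀I' (Set.toFinite _), hI'c]
        · rw [Set.insert_sdiff_self_of_notMem hx₀I', hcl]
      · rw [if_neg hycl]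
        refine ⟨hbase _ ?_ ?_, y, Set.mem_insert _ _, ?_⟩
        · rw [hI.insert_indep_iff_of_notMem hyI]
          exact ⟨hE ▸ Set.mem_univ _, hycl⟩
        · rw [Set.ncard_insert_of_notMem hyI (Set.toFinite _), hIc]
        · rw [Set.insert_sdiff_self_of_notMem hyI]
    · intro y hy z hz hyz
      simp only [Set.Finite.coe_toFinset] at hy hz
      obtain ⟨hyn, hyI⟩ := hy
      obtain ⟨hzn, hzI⟩ := hz
      simp only at hyz
      by_cases hycl : y ∈ N.closure I <;> by_cases hzcl : z ∈ N.closure I
      · rw [if_pos hycl, if_pos hzcl] at hyz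
        have h1 : y ∈ insert x₀ (insert z (I \ {f z})) := by
          rw [← hyz]; exact Or.inr (Or.inl rfl)
        rcases h1 with h | h | h
        · exact absurd (h ▸ hycl) hx₀
        · exact h
        · exact absurd h.1 hyI
      · rw [if_pos hycl, if_neg hzcl] at hyz
        have h1 : y ∈ insert z I := by
          rw [← hyz]; exact Or.inr (Or.inl rfl)
        rcases h1 with h | h
        · exact h
        · exact absurd h hyI
      · rw [if_neg hycl, if_pos hzcl] at hyz
        have h1 : z ∈ insert y I := by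
          rw [hyz]; exact Or.inr (Or.inl rfl)
        rcases h1 with h | h
        · exact h.symm
        · exact absurd h hzI
      · rw [if_neg hycl, if_neg hzcl] at hyz
        have h1 : y ∈ insert z I := by
          rw [← hyz]; exact Or.inl rfl
        rcases h1 with h | h
        · exact h
        · exact absurd h hyI
  · intro B hB
    rw [Set.Finite.mem_toFinset] at hB
    rw [← hbc B hB, Set.ncard_eq_toFinset_card _ (Set.toFinite B)]
    refine (Finset.card_le_card (t := ((Set.toFinite B).toFinset).image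
      (fun x => N.closure (B \ {x}))) ?_).trans Finset.card_image_le
    intro H hH
    simp only [Finset.mem_bipartiteBelow, Set.Finite.mem_toFinset] at hH
    obtain ⟨-, x, hx, rfl⟩ := hH
    simp only [Finset.mem_image, Set.Finite.mem_toFinset]
    exact ⟨x, hx, rfl⟩

end Pool.Agent.Work.MP_f3d170_co_h45
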