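import Mathlib
import Pool.Agent.Work.MP_f3d170_co_h45.Flats

set_option autoImplicit false

open Set Matroid

namespace Pool.Agent.Work.MP_f3d170_co_h45

variable {α : Type*} [Finite α]

/-- `N` with the element `e` made free, in rank `k`. -/
noncomputable def freeAt (N : Matroid α) (e : α) (k : ℕ) : Matroid α :=
  (IndepMatroid.ofFinite (E := Set.univ) (Set.toFinite _)
    (fun I => N.Indep (I \ {e}) ∧ I.ncard ≤ k)
    (by simp)
    (by
      rintro I J ⟨hJ, hJk⟩ hIJ
      exact ⟨hJ.subset (Set.sdiff_subset_sdiff_left hIJ),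
        (Set.ncard_le_ncard hIJ (Set.toFinite _)).trans hJk⟩)
    (by
      rintro I J ⟨hI, hIk⟩ ⟨hJ, hJk⟩ hlt
      by_cases heI : e ∈ I
      · have hc : (I \ {e}).ncard < (J \ {e}).ncard := by
          have h1 := Set.ncard_sdiff_singleton_of_mem heI
          have h2 : J.ncard - 1 ≤ (J \ {e}).ncard := Set.pred_ncard_le_ncard_sdiff_singleton J e
          have h3 : 0 < I.ncard := (Set.ncard_pos (Set.toFinite _)).2 ⟨e, heI⟩
          omega
        have hc' : (I \ {e}).encard < (J \ {e}).encard := by
          rw [← (Set.toFinite (I \ {e})).cast_ncard_eq, ← (Set.toFinite (J \ {e})).cast_ncard_eq]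
          exact_mod_cast hc
        obtain ⟨x, hx, hxi⟩ := hI.augment hJ hc'
        have hxe : x ≠ e := hx.1.2
        refine ⟨x, hx.1.1, fun h => hx.2 ⟨h, hxe⟩, ?_, ?_⟩
        · rwa [Set.insert_sdiff_of_notMem _ (by simpa using hxe)]
        · exact (Set.ncard_insert_le x I).trans (by omega)
      · by_cases heJ : e ∈ J
        · refine ⟨e, heJ, heI, ?_, ?_⟩
          · rwa [Set.insert_sdiff_of_mem _ (by simp)]
          · exact (Set.ncard_insert_le e I).trans (by omega)
        · rw [Set.sdiff_singleton_eq_self heI] at hI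
          rw [Set.sdiff_singleton_eq_self heJ] at hJ
          have hc' : I.encard < J.encard := by
            rw [← (Set.toFinite I).cast_ncard_eq, ← (Set.toFinite J).cast_ncard_eq]
            exact_mod_cast hlt
          obtain ⟨x, hx, hxi⟩ := hI.augment hJ hc'
          refine ⟨x, hx.1, hx.2, hxi.subset Set.sdiff_subset, ?_⟩
          exact (Set.ncard_insert_le x I).trans (by omega))
    (fun I _ => Set.subset_univ I)).matroid

@[simp] lemma freeAt_E (N : Matroid α) (e : α) (k : ℕ) : (freeAt N e k).E = Set.univ := rfl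

lemma freeAt_indep {N : Matroid α} {e : α} {k : ℕ} {I : Set α} :
    (freeAt N e k).Indep I ↔ N.Indep (I \ {e}) ∧ I.ncard ≤ k := Iff.rfl

lemma freeAt_indep_of_indep {N : Matroid α} {e : α} {k : ℕ} (hr : N.eRank = k) {I : Set α}
    (hI : N.Indep I) : (freeAt N e k).Indep I := by
  refine freeAt_indep.2 ⟨hI.subset Set.sdiff_subset, ?_⟩
  have := hI.encard_le_eRank
  rw [hr, ← (Set.toFinite I).cast_ncard_eq] at this
  exact_mod_cast this

lemma freeAt_eRank {N : Matroid α} {e : α} {k : ℕ} (hr : N.eRank = k) :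
    (freeAt N e k).eRank = k := by
  obtain ⟨B, hB⟩ := N.exists_isBase
  have hBk : B.encard = k := by rw [hB.encard_eq_eRank, hr]
  have h1 : (freeAt N e k).Indep B := freeAt_indep_of_indep hr hB.indep
  refine le_antisymm ?_ ?_
  · obtain ⟨B', hB'⟩ := (freeAt N e k).exists_isBase
    rw [← hB'.encard_eq_eRank, ← (Set.toFinite B').cast_ncard_eq]
    exact_mod_cast (freeAt_indep.1 hB'.indep).2
  · rw [← hBk]; exact h1.encard_le_eRank

omit [Finite α] in
/-- An element is in the closure of `I` unless it can be added to `I`. -/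
lemma mem_closure_iff_insert {N : Matroid α} (hE : N.E = Set.univ) {I : Set α} (hI : N.Indep I)
    {x : α} (hx : x ∉ I) : x ∈ N.closure I ↔ ¬ N.Indep (insert x I) := by
  rw [hI.mem_closure_iff_of_notMem hx, Dep]
  simp [hE]

lemma freeAt_closure_one {N : Matroid α} (hE : N.E = Set.univ) {e : α} (he : N.IsLoop e) {j : ℕ}
    (hr : N.eRank = (j + 1 : ℕ)) {I : Set α} (hI : N.Indep I) (hIj : I.ncard = j) :
    (freeAt N e (j + 1)).closure I = N.closure I \ {e} := by
  have hF : (freeAt N e (j + 1)).Indep I := freeAt_indep_of_indep hr hI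
  have heI : e ∉ I := he.notMem_of_indep hI
  ext x
  by_cases hxI : x ∈ I
  · have h1 : x ∈ (freeAt N e (j + 1)).closure I :=
      (freeAt N e (j + 1)).subset_closure I (Set.subset_univ _) hxI
    have h2 : x ∈ N.closure I := N.subset_closure I hI.subset_ground hxI
    simp only [h1, true_iff]
    exact ⟨h2, fun h => heI (h ▸ hxI)⟩
  · rw [mem_closure_iff_insert rfl hF hxI]
    by_cases hxe : x = e
    · subst hxe
      simp only [Set.mem_sdiff, Set.mem_singleton_iff, not_true_eq_false, and_false, iff_false,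
        not_not]
      rw [freeAt_indep]
      refine ⟨by rw [Set.insert_sdiff_self_of_notMem hxI]; exact hI, ?_⟩
      rw [Set.ncard_insert_of_notMem hxI (Set.toFinite _), hIj]
    · simp only [Set.mem_sdiff, Set.mem_singleton_iff, hxe, not_false_eq_true, and_true]
      rw [mem_closure_iff_insert hE hI hxI, not_iff_not, freeAt_indep,
        Set.ncard_insert_of_notMem hxI (Set.toFinite _), hIj, Set.sdiff_singleton_eq_self]
      · simp
      · rintro (h | h)
        · exact hxe h.symm
        · exact heI h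

lemma freeAt_closure_two {N : Matroid α} (hE : N.E = Set.univ) {e : α} (he : N.IsLoop e) {j : ℕ}
    {I : Set α} (hI : N.Indep I) (hIj : I.ncard + 1 = j) :
    (freeAt N e (j + 1)).Indep (insert e I) ∧
      (freeAt N e (j + 1)).closure (insert e I) = N.closure I := by
  have heI : e ∉ I := he.notMem_of_indep hI
  have hF : (freeAt N e (j + 1)).Indep (insert e I) := by
    rw [freeAt_indep]
    refine ⟨by rw [Set.insert_sdiff_self_of_notMem heI]; exact hI, ?_⟩
    rw [Set.ncard_insert_of_notMem heI (Set.toFinite _)]; omega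
  refine ⟨hF, ?_⟩
  ext x
  by_cases hxI : x ∈ insert e I
  · have h1 : x ∈ (freeAt N e (j + 1)).closure (insert e I) :=
      (freeAt N e (j + 1)).subset_closure _ (Set.subset_univ _) hxI
    simp only [h1, true_iff]
    rcases hxI with rfl | h
    · exact he.mem_closure I
    · exact N.subset_closure I hI.subset_ground h
  · rw [mem_closure_iff_insert rfl hF hxI]
    have hxe : x ≠ e := fun h => hxI (Or.inl h)
    have hxI' : x ∉ I := fun h => hxI (Or.inr h)
    have hins : insert x (insert e I) \ {e} = insert x I := by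
      rw [Set.insert_comm, Set.insert_sdiff_self_of_notMem]
      rintro (h | h)
      · exact hxe h.symm
      · exact heI h
    rw [mem_closure_iff_insert hE hI hxI', not_iff_not, freeAt_indep, hins,
      Set.ncard_insert_of_notMem hxI (Set.toFinite _),
      Set.ncard_insert_of_notMem heI (Set.toFinite _)]
    constructor
    · exact fun h => h.1
    · exact fun h => ⟨h, by omega⟩

lemma freeAt_nonloops {N : Matroid α} {e : α} {k : ℕ} (hk : 1 ≤ k) :
    nonloops (freeAt N e k) = insert e (nonloops N) := by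
  ext x
  simp only [nonloops, Set.mem_ofPred_eq, Set.mem_insert_iff]
  rw [← indep_singleton, ← indep_singleton, freeAt_indep, Set.ncard_singleton]
  by_cases hxe : x = e
  · subst hxe; simp [hk]
  · rw [Set.sdiff_singleton_eq_self (by simpa using Ne.symm hxe)]
    simp [hxe, hk]

/-- The number of hyperplanes after freeing a loop. -/
lemma freeAt_flats_succ {N : Matroid α} (hE : N.E = Set.univ) {e : α} (he : N.IsLoop e) {j : ℕ}
    (hr : N.eRank = (j + 1 + 1 : ℕ)) :
    (flatsOf N (j + 1)).ncard + (flatsOf N j).ncard ≤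
      (flatsOf (freeAt N e (j + 1 + 1)) (j + 1)).ncard := by
  have heF : ∀ i, ∀ F ∈ flatsOf N i, e ∈ F := by
    rintro i F ⟨I, _, _, rfl⟩
    exact he.mem_closure I
  have hinj : Set.InjOn (fun F : Set α => F \ {e}) (flatsOf N (j + 1)) := by
    intro F hF G hG hFG
    simp only at hFG
    rw [← Set.insert_sdiff_self_of_mem (heF _ F hF), ← Set.insert_sdiff_self_of_mem (heF _ G hG),
      hFG]
  rw [← hinj.ncard_image]
  rw [← Set.ncard_union_eq ?_ (Set.toFinite _) (Set.toFinite _)]
  · refine Set.ncard_le_ncard ?_ (Set.toFinite _)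
    rintro G (⟨F, ⟨I, hI, hIc, rfl⟩, rfl⟩ | ⟨I, hI, hIc, rfl⟩)
    · exact ⟨I, freeAt_indep_of_indep hr hI, hIc, freeAt_closure_one hE he hr hI hIc⟩
    · obtain ⟨h1, h2⟩ := freeAt_closure_two (j := j + 1) hE he hI (by omega)
      refine ⟨insert e I, h1, ?_, h2⟩
      rw [Set.ncard_insert_of_notMem (he.notMem_of_indep hI) (Set.toFinite _), hIc]
  · rw [Set.disjoint_left]
    rintro G ⟨F, _, rfl⟩ hG
    exact (heF _ _ hG).2 rfl

lemma freeAt_flats_zero {N : Matroid α} (hE : N.E = Set.univ) {e : α} (he : N.IsLoop e)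
    (hr : N.eRank = (0 + 1 : ℕ)) :
    (flatsOf N 0).ncard ≤ (flatsOf (freeAt N e (0 + 1)) 0).ncard := by
  have heF : ∀ i, ∀ F ∈ flatsOf N i, e ∈ F := by
    rintro i F ⟨I, _, _, rfl⟩
    exact he.mem_closure I
  have hinj : Set.InjOn (fun F : Set α => F \ {e}) (flatsOf N 0) := by
    intro F hF G hG hFG
    simp only at hFG
    rw [← Set.insert_sdiff_self_of_mem (heF _ F hF), ← Set.insert_sdiff_self_of_mem (heF _ G hG),
      hFG]
  rw [← hinj.ncard_image]
  refine Set.ncard_le_ncard ?_ (Set.toFinite _)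
  rintro G ⟨F, ⟨I, hI, hIc, rfl⟩, rfl⟩
  exact ⟨I, freeAt_indep_of_indep hr hI, hIc, freeAt_closure_one hE he hr hI hIc⟩

/-- The chain inequality for one matroid. -/
theorem chain_one {N : Matroid α} (hE : N.E = Set.univ) {e : α} (he : N.IsLoop e) {j : ℕ}
    (hr : N.eRank = (j + 1 : ℕ)) :
    ((nonloops N).ncard + 1) * (flatsOf N j).ncard ≤
      ((nonloops N).ncard + 1 - j) * (flatsOf (freeAt N e (j + 1)) j).ncard := by
  cases j with
  | zero => 
    exact Nat.mul_le_mul (by omega) (freeAt_flats_zero hE he hr)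
  | succ i =>
    have h1 := freeAt_flats_succ hE he hr
    have h2 := flats_step N i
    have h3 : i + 1 + 1 ≤ (nonloops N).ncard := by
      obtain ⟨B, hB⟩ := N.exists_isBase
      have hBk : B.encard = (i + 1 + 1 : ℕ) := by rw [hB.encard_eq_eRank, hr]
      have hBc : B.ncard = i + 1 + 1 := by simp only [Set.ncard, hBk]; rfl
      rw [← hBc]
      exact Set.ncard_le_ncard (fun x hx => hB.indep.isNonloop_of_mem hx) (Set.toFinite _)
    obtain ⟨t, ht⟩ := Nat.exists_eq_add_of_le h3
    rw [ht] at h2 ⊢
    have e1 : i + 1 + 1 + t + 1 - (i + 1) = t + 2 := by omega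
    have e2 : i + 1 + 1 + t - i = t + 2 := by omega
    rw [e1]
    rw [e2] at h2
    nlinarith

end Pool.Agent.Work.MP_f3d170_co_h45
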