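import Mathlib
import Pool.Agent.Work.MP_f3d170_co_h45.Defs
import Pool.Agent.Work.MP_f3d170_co_h45.Free

set_option autoImplicit false

open Set Matroid

namespace Pool.Agent.Work.MP_f3d170_co_h45

variable {n : ℕ}

lemma Iso.refl (M : Matroid (Fin n)) : Iso M M := ⟨Equiv.refl _, by simp⟩

lemma Iso.symm {M N : Matroid (Fin n)} (h : Iso M N) : Iso N M := by
  obtain ⟨σ, hσ⟩ := h
  refine ⟨σ.symm, fun I => ?_⟩
  rw [hσ, ← Set.image_comp]; simp

lemma Iso.trans {M N P : Matroid (Fin n)} (h : Iso M N) (h' : Iso N P) : Iso M P := by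
  obtain ⟨σ, hσ⟩ := h
  obtain ⟨τ, hτ⟩ := h'
  refine ⟨σ.trans τ, fun I => ?_⟩
  rw [hσ, hτ, ← Set.image_comp]; rfl

lemma Iso.exists_map {M N : Matroid (Fin n)} (hM : M.E = Set.univ) (hN : N.E = Set.univ)
    (h : Iso M N) : ∃ σ : Equiv.Perm (Fin n), N = M.mapEquiv σ := by
  obtain ⟨σ, hσ⟩ := h
  refine ⟨σ, ?_⟩
  refine Matroid.ext_indep (by simp [hM, hN]) ?_
  intro I _
  rw [mapEquiv_indep_iff, hσ, ← Set.image_comp]; simp

lemma flatsOf_mapEquiv (M : Matroid (Fin n)) (σ : Equiv.Perm (Fin n)) (j : ℕ) :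
    flatsOf (M.mapEquiv σ) j = (fun F => σ '' F) '' flatsOf M j := by
  ext F
  constructor
  · rintro ⟨I, hI, hIc, rfl⟩
    rw [mapEquiv_indep_iff] at hI
    refine ⟨M.closure (σ.symm '' I), ⟨_, hI, ?_, rfl⟩, ?_⟩
    · rw [Set.ncard_image_of_injective _ σ.symm.injective, hIc]
    · rw [mapEquiv_eq_map, map_closure_eq]
      simp only [Equiv.image_symm_eq_preimage]
  · rintro ⟨_, ⟨I, hI, hIc, rfl⟩, rfl⟩
    refine ⟨σ '' I, ?_, ?_, ?_⟩
    · rw [mapEquiv_indep_iff, ← Set.image_comp]; simpa using hI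
    · rw [Set.ncard_image_of_injective _ σ.injective, hIc]
    · rw [mapEquiv_eq_map, map_closure_eq, Set.preimage_image_eq _ σ.injective]

lemma Iso.flats_ncard {M N : Matroid (Fin n)} (hM : M.E = Set.univ) (hN : N.E = Set.univ)
    (h : Iso M N) (j : ℕ) : (flatsOf M j).ncard = (flatsOf N j).ncard := by
  obtain ⟨σ, rfl⟩ := h.exists_map hM hN
  rw [flatsOf_mapEquiv, Set.ncard_image_of_injective]
  exact Set.image_injective.2 σ.injective

lemma Iso.nonloops_ncard {M N : Matroid (Fin n)} (h : Iso M N) :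
    (nonloops M).ncard = (nonloops N).ncard := by
  obtain ⟨σ, hσ⟩ := h
  have : nonloops N = σ '' nonloops M := by
    ext x
    rw [Equiv.image_eq_preimage_symm]
    simp only [nonloops, Set.mem_preimage, Set.mem_ofPred_eq]
    rw [← indep_singleton, ← indep_singleton, hσ]
    simp
  rw [this, Set.ncard_image_of_injective _ σ.injective]

/-- `e` is free in `M` (in rank `k`). -/
def IsFreeElt (M : Matroid (Fin n)) (e : Fin n) (k : ℕ) : Prop :=
  ∀ X : Set (Fin n), M.Indep X ↔ M.Indep (X \ {e}) ∧ X.ncard ≤ k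

lemma isFreeElt_freeAt (N : Matroid (Fin n)) (e : Fin n) (k : ℕ) :
    IsFreeElt (freeAt N e k) e k := by
  intro X
  rw [freeAt_indep, freeAt_indep]
  have h : (X \ {e}) \ {e} = X \ {e} := by rw [Set.sdiff_sdiff, Set.union_self]
  rw [h]
  constructor
  · rintro ⟨h1, h2⟩
    exact ⟨⟨h1, (Set.ncard_le_ncard Set.sdiff_subset (Set.toFinite _)).trans h2⟩, h2⟩
  · rintro ⟨⟨h1, -⟩, h2⟩
    exact ⟨h1, h2⟩

lemma mem_swap_image {e e' z : Fin n} {X : Set (Fin n)} :
    z ∈ Equiv.swap e e' '' X ↔ Equiv.swap e e' z ∈ X := by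
  rw [Equiv.image_eq_preimage_symm, Equiv.symm_swap]; rfl

lemma IsFreeElt.swap_indep {M : Matroid (Fin n)} {e e' : Fin n} {k : ℕ} (he : IsFreeElt M e k)
    (he' : IsFreeElt M e' k) {X : Set (Fin n)} (hX : M.Indep X) :
    M.Indep (Equiv.swap e e' '' X) := by
  have hcard : (Equiv.swap e e' '' X).ncard = X.ncard :=
    Set.ncard_image_of_injective _ (Equiv.injective _)
  have hXk : X.ncard ≤ k := ((he X).1 hX).2
  by_cases h1 : e ∈ X <;> by_cases h2 : e' ∈ X
  · have : Equiv.swap e e' '' X = X := by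
      ext z
      rw [mem_swap_image]
      by_cases hz : z = e
      · subst hz; simp [h1, h2]
      · by_cases hz' : z = e'
        · subst hz'; simp [h1, h2]
        · rw [Equiv.swap_apply_of_ne_of_ne hz hz']
    rwa [this]
  · rw [he', hcard]
    refine ⟨?_, hXk⟩
    refine hX.subset ?_
    rintro z ⟨hz, hze'⟩
    rw [mem_swap_image] at hz
    by_cases hze : z = e
    · subst hze; exact h1
    · rwa [Equiv.swap_apply_of_ne_of_ne hze hze'] at hz
  · rw [he, hcard]
    refine ⟨?_, hXk⟩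
    refine hX.subset ?_
    rintro z ⟨hz, hze⟩
    rw [mem_swap_image] at hz
    by_cases hze' : z = e'
    · subst hze'; exact h2
    · rwa [Equiv.swap_apply_of_ne_of_ne hze hze'] at hz
  · have : Equiv.swap e e' '' X = X := by
      ext z
      rw [mem_swap_image]
      by_cases hz : z = e
      · subst hz; simp [h1, h2]
      · by_cases hz' : z = e'
        · subst hz'; simp [h1, h2]
        · rw [Equiv.swap_apply_of_ne_of_ne hz hz']
    rwa [this]

lemma IsFreeElt.swap_indep_iff {M : Matroid (Fin n)} {e e' : Fin n} {k : ℕ}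
    (he : IsFreeElt M e k) (he' : IsFreeElt M e' k) {X : Set (Fin n)} :
    M.Indep (Equiv.swap e e' '' X) ↔ M.Indep X := by
  refine ⟨fun h => ?_, fun h => he.swap_indep he' h⟩
  have := he.swap_indep he' h
  rwa [← Set.image_comp, show ⇑(Equiv.swap e e') ∘ ⇑(Equiv.swap e e') = id by
    ext z; simp, Set.image_id] at this

lemma IsFreeElt.of_iso {M N : Matroid (Fin n)} {e : Fin n} {k : ℕ} (he : IsFreeElt M e k)
    {σ : Equiv.Perm (Fin n)} (hσ : ∀ I : Set (Fin n), M.Indep I ↔ N.Indep (σ '' I)) :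
    IsFreeElt N (σ e) k := by
  intro X
  have h1 : X = σ '' (σ.symm '' X) := by rw [← Set.image_comp]; simp
  have h2 : X \ {σ e} = σ '' ((σ.symm '' X) \ {e}) := by
    rw [Set.image_sdiff σ.injective, ← h1, Set.image_singleton]
  have h3 : X.ncard = (σ.symm '' X).ncard :=
    (Set.ncard_image_of_injective _ σ.symm.injective).symm
  rw [h2, ← hσ, h3]
  conv_lhs => rw [h1, ← hσ]
  exact he _

lemma indep_iff_freeAt {N : Matroid (Fin n)} {e : Fin n} {k : ℕ} (he : N.IsLoop e)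
    (hr : N.eRank = k) {I : Set (Fin n)} : N.Indep I ↔ e ∉ I ∧ (freeAt N e k).Indep I := by
  constructor
  · intro h
    exact ⟨he.notMem_of_indep h, freeAt_indep_of_indep hr h⟩
  · rintro ⟨h1, h2⟩
    have := (freeAt_indep.1 h2).1
    rwa [Set.sdiff_singleton_eq_self h1] at this

/-- If the matroids obtained by freeing one loop are isomorphic, so are the original ones. -/
theorem iso_of_freeAt_iso {N₁ N₂ : Matroid (Fin n)} {e₁ e₂ : Fin n} {k : ℕ}
    (he₁ : N₁.IsLoop e₁) (he₂ : N₂.IsLoop e₂) (hr₁ : N₁.eRank = k) (hr₂ : N₂.eRank = k)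
    (h : Iso (freeAt N₁ e₁ k) (freeAt N₂ e₂ k)) : Iso N₁ N₂ := by
  obtain ⟨σ, hσ⟩ := h
  have hf : IsFreeElt (freeAt N₂ e₂ k) (σ e₁) k := (isFreeElt_freeAt N₁ e₁ k).of_iso hσ
  have hf₂ : IsFreeElt (freeAt N₂ e₂ k) e₂ k := isFreeElt_freeAt N₂ e₂ k
  refine ⟨σ.trans (Equiv.swap (σ e₁) e₂), fun I => ?_⟩
  have himg : (σ.trans (Equiv.swap (σ e₁) e₂)) '' I = Equiv.swap (σ e₁) e₂ '' (σ '' I) := by
    rw [← Set.image_comp]; rfl
  rw [indep_iff_freeAt he₁ hr₁, indep_iff_freeAt he₂ hr₂, himg, hf.swap_indep_iff hf₂, ← hσ]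
  refine and_congr_left fun _ => not_congr ?_
  rw [mem_swap_image, Equiv.swap_apply_right, σ.injective.mem_set_image]

end Pool.Agent.Work.MP_f3d170_co_h45
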