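import Mathlib
import Pool.Agent.Work.MP_f3d170_co_h45.Classes

set_option autoImplicit false

open Set Matroid

namespace Pool.Agent.Work.MP_f3d170_co_h45

variable {n : ℕ}

lemma IsTransversal.eq_of_iso {r : ℕ} {𝒩 : Finset (RankMatroid n r)} (h : IsTransversal 𝒩)
    {M N : RankMatroid n r} (hM : M ∈ 𝒩) (hN : N ∈ 𝒩) (hi : Iso M.1 N.1) : M = N :=
  (h M).unique ⟨hM, Iso.refl _⟩ ⟨hN, hi⟩

theorem chain_sum {j : ℕ} {𝒩 : Finset (RankMatroid n (j + 1))} (h : IsTransversal 𝒩) {m : ℕ}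
    (hm : m < n) :
    (m + 1) * ∑ M ∈ 𝒩 with (nonloops M.1).ncard = m, (flatsOf M.1 j).ncard ≤
      (m + 1 - j) * ∑ M ∈ 𝒩 with (nonloops M.1).ncard = m + 1, (flatsOf M.1 j).ncard := by
  classical
  have hloop : ∀ M : RankMatroid n (j + 1), (nonloops M.1).ncard = m → ∃ e, M.1.IsLoop e := by
    intro M hM
    by_contra hcon
    push Not at hcon
    have : nonloops M.1 = Set.univ := by
      ext x
      simp only [nonloops, Set.mem_ofPred_eq, Set.mem_univ, iff_true]
      exact isNonloop_of_not_isLoop (by rw [M.2.1]; trivial) (hcon x)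
    rw [this, Set.ncard_univ, Nat.card_fin] at hM
    omega
  have hφ : ∀ M : RankMatroid n (j + 1), ∃ M' : RankMatroid n (j + 1), 
      (nonloops M.1).ncard = m → M' ∈ 𝒩 ∧
        ∃ e, M.1.IsLoop e ∧ Iso (freeAt M.1 e (j + 1)) M'.1 := by
    intro M
    by_cases hM : (nonloops M.1).ncard = m
    · obtain ⟨e, he⟩ := hloop M hM
      obtain ⟨M', hM', -⟩ := h ⟨freeAt M.1 e (j + 1), rfl, freeAt_eRank M.2.2⟩
      exact ⟨M', fun _ => ⟨hM'.1, e, he, hM'.2⟩⟩
    · exact ⟨M, fun h => absurd h hM⟩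
  choose φ hφ using hφ
  have hmem : ∀ M ∈ 𝒩.filter (fun M => (nonloops M.1).ncard = m),
      φ M ∈ 𝒩.filter (fun M => (nonloops M.1).ncard = m + 1) := by
    intro M hM
    rw [Finset.mem_filter] at hM ⊢
    obtain ⟨h1, e, he, hi⟩ := hφ M hM.2
    refine ⟨h1, ?_⟩
    rw [← hi.nonloops_ncard, freeAt_nonloops (by omega), Set.ncard_insert_of_notMem ?_
      (Set.toFinite _), hM.2]
    exact he.not_isNonloop
  have hinj : Set.InjOn φ (𝒩.filter (fun M => (nonloops M.1).ncard = m)) := by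
    intro M hM M' hM' hMM'
    rw [Finset.mem_coe, Finset.mem_filter] at hM hM'
    obtain ⟨h1, e, he, hi⟩ := hφ M hM.2
    obtain ⟨h1', e', he', hi'⟩ := hφ M' hM'.2
    refine h.eq_of_iso hM.1 hM'.1 ?_
    refine iso_of_freeAt_iso he he' M.2.2 M'.2.2 ?_
    exact hi.trans (hMM' ▸ hi'.symm)
  calc (m + 1) * ∑ M ∈ 𝒩 with (nonloops M.1).ncard = m, (flatsOf M.1 j).ncard
      = ∑ M ∈ 𝒩 with (nonloops M.1).ncard = m, (m + 1) * (flatsOf M.1 j).ncard := by
        rw [Finset.mul_sum]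
    _ ≤ ∑ M ∈ 𝒩 with (nonloops M.1).ncard = m, (m + 1 - j) * (flatsOf (φ M).1 j).ncard := by
        refine Finset.sum_le_sum fun M hM => ?_
        rw [Finset.mem_filter] at hM
        obtain ⟨h1, e, he, hi⟩ := hφ M hM.2
        rw [← hi.flats_ncard rfl (φ M).2.1, ← hM.2]
        exact chain_one M.2.1 he M.2.2
    _ = (m + 1 - j) * ∑ M ∈ (𝒩.filter (fun M => (nonloops M.1).ncard = m)).image φ,
          (flatsOf M.1 j).ncard := by
        rw [Finset.sum_image hinj, Finset.mul_sum]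
    _ ≤ _ := by
        refine Nat.mul_le_mul_left _ ?_
        refine Finset.sum_le_sum_of_subset ?_
        intro M hM
        rw [Finset.mem_image] at hM
        obtain ⟨M', hM', rfl⟩ := hM
        exact hmem M' hM'

/-- The arithmetic behind the summation. -/
lemma arith (k r : ℕ) (a : ℕ → ℤ)
    (hchain : ∀ d < r, ((k + d + 1 : ℕ) : ℤ) * a d ≤ ((d + 2 : ℕ) : ℤ) * a (d + 1)) :
    ∀ D ≤ r, ((r : ℤ) + 1) * a 0 ≤
      ∑ d ∈ Finset.range (D + 1), (((k : ℤ) + 1) * (d + 1) - k * (r + 1)) * a d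
        + ((r : ℤ) - D) * (k + D + 1) * a D := by
  intro D
  induction D with
  | zero =>
    intro _
    simp only [zero_add, Finset.range_one, Finset.sum_singleton, Nat.cast_zero]
    linarith [show ((r : ℤ) + 1) * a 0 = (((k : ℤ) + 1) * (0 + 1) - k * (r + 1)) * a 0 +
      ((r : ℤ) - 0) * (k + 0 + 1) * a 0 by ring]
  | succ D ih =>
    intro hD
    have h1 := ih (by omega)
    have h2 := hchain D (by omega)
    rw [Finset.sum_range_succ]
    push_cast at h2 ⊢
    have h3 : (0 : ℤ) ≤ (r : ℤ) - D := by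
      have : (D : ℤ) ≤ r := by exact_mod_cast (by omega : D ≤ r)
      linarith
    have h4 := mul_le_mul_of_nonneg_left h2 h3
    nlinarith [h1, h4]

end Pool.Agent.Work.MP_f3d170_co_h45
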