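import Mathlib
import Pool.Agent.Work.MP_f3d170_co_h45.DualSum

set_option autoImplicit false

open Set Matroid

namespace Pool.Agent.Work.MP_f3d170_co_h45

variable {n : ℕ}

/-- The number of non-loops. -/
noncomputable def nl {j : ℕ} (M : RankMatroid n j) : ℕ := (nonloops M.1).ncard

lemma base_ncard {j : ℕ} (M : RankMatroid n j) {B : Set (Fin n)} (hB : M.1.IsBase B) :
    B.ncard = j := by
  have h := hB.encard_eq_eRank
  rw [M.2.2] at h
  simp only [Set.ncard, h]; rfl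

lemma le_nl {j : ℕ} (M : RankMatroid n j) : j ≤ nl M := by
  obtain ⟨B, hB⟩ := M.1.exists_isBase
  exact (base_ncard M hB).symm.le.trans
    (Set.ncard_le_ncard (fun x hx => hB.indep.isNonloop_of_mem hx) (Set.toFinite _))

lemma nl_le {j : ℕ} (M : RankMatroid n j) : nl M ≤ n := by
  have := Set.ncard_le_ncard (Set.subset_univ (nonloops M.1)) (Set.toFinite _)
  rwa [Set.ncard_univ, Nat.card_fin] at this

/-- A matroid of rank `k` with exactly `k` non-loops has at least `k` hyperplanes. -/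
lemma hyp_top {j : ℕ} (M : RankMatroid n (j + 1)) (h : nl M = j + 1) :
    j + 1 ≤ (flatsOf M.1 j).ncard := by
  have h1 := flats_step M.1 j
  have h2 : 1 ≤ (flatsOf M.1 (j + 1)).ncard := by
    obtain ⟨B, hB⟩ := M.1.exists_isBase
    exact (Set.ncard_pos (Set.toFinite _)).2 ⟨_, B, hB.indep, base_ncard M hB, rfl⟩
  rw [show (nonloops M.1).ncard = j + 1 from h, show j + 1 - j = 1 by omega, mul_one] at h1
  nlinarith

lemma exists_top {j : ℕ} (hj : j + 1 ≤ n) : ∃ M : RankMatroid n (j + 1), nl M = j + 1 := by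
  obtain ⟨I, -, hI⟩ := Set.exists_subset_card_eq (s := (Set.univ : Set (Fin n))) (n := j + 1)
    (by rw [Set.ncard_univ, Nat.card_fin]; exact hj)
  have hIe : I.encard = (j + 1 : ℕ) := by
    rw [← (Set.toFinite I).cast_ncard_eq, hI]
  have hB : (uniqueBaseOn I Set.univ).IsBase I := by
    rw [uniqueBaseOn_isBase_iff (Set.subset_univ _)]
  refine ⟨⟨uniqueBaseOn I Set.univ, rfl, ?_⟩, ?_⟩
  · rw [← hB.encard_eq_eRank, hIe]
  · refine Eq.trans ?_ hI
    change (nonloops (uniqueBaseOn I Set.univ)).ncard = I.ncard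
    congr 1
    ext x
    simp only [nonloops, Set.mem_ofPred_eq]
    rw [← indep_singleton, uniqueBaseOn_indep_iff (Set.subset_univ _), Set.singleton_subset_iff]

/-- The inequality for hyperplanes and bases. -/
theorem dual_ineq {j : ℕ} (hj : j + 1 ≤ n) {𝒩 : Finset (RankMatroid n (j + 1))}
    (h : IsTransversal 𝒩) :
    (n - (j + 1) + 1) * (∑ M ∈ 𝒩, (flatsOf M.1 j).ncard + 1) ≤
      (j + 1 + 1) * ∑ M ∈ 𝒩, numBases M.1 := by
  classical
  obtain ⟨r, hr⟩ := Nat.exists_eq_add_of_le hj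
  set A : ℕ → ℕ := fun d => ∑ M ∈ 𝒩 with nl M = j + 1 + d, (flatsOf M.1 j).ncard with hA
  have hsum : ∀ f : RankMatroid n (j + 1) → ℕ,
      ∑ M ∈ 𝒩, f M = ∑ d ∈ Finset.range (r + 1), ∑ M ∈ 𝒩 with nl M = j + 1 + d, f M := by
    intro f
    have h1 : ∀ M ∈ 𝒩, nl M - (j + 1) ∈ Finset.range (r + 1) := by
      intro M _
      have h1 := le_nl M
      have h2 := nl_le M
      rw [Finset.mem_range]; omega
    rw [← Finset.sum_fiberwise_of_maps_to h1]
    refine Finset.sum_congr rfl fun d _ => ?_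
    congr 1
    refine Finset.filter_congr fun M _ => ?_
    have h1 := le_nl M
    omega
  have hchain : ∀ d < r, ((j + 1 + d + 1 : ℕ) : ℤ) * A d ≤ ((d + 2 : ℕ) : ℤ) * A (d + 1) := by
    intro d hd
    have h1 := chain_sum h (m := j + 1 + d) (by omega)
    have h2 : j + 1 + d + 1 - j = d + 2 := by omega
    rw [h2] at h1
    exact_mod_cast h1
  have hb : ∑ d ∈ Finset.range (r + 1), (d + 1) * A d ≤ (∑ M ∈ 𝒩, numBases M.1) * (j + 1) := by
    rw [hsum, Finset.sum_mul]
    refine Finset.sum_le_sum fun d _ => ?_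
    rw [hA, Finset.mul_sum, Finset.sum_mul]
    refine Finset.sum_le_sum fun M hM => ?_
    rw [Finset.mem_filter] at hM
    have h1 := bases_ge M.1 M.2.1 j M.2.2
    have h2 : (nonloops M.1).ncard - j = d + 1 := by
      have : (nonloops M.1).ncard = j + 1 + d := hM.2
      omega
    rw [h2] at h1
    rw [mul_comm]; exact h1
  have htop : j + 1 ≤ A 0 := by
    obtain ⟨M₀, hM₀⟩ := exists_top (n := n) hj
    obtain ⟨M, ⟨hM, hi⟩, -⟩ := h M₀
    have hnl : nl M = j + 1 := hi.nonloops_ncard.symm.trans hM₀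
    refine (hyp_top M hnl).trans ?_
    refine Finset.single_le_sum (f := fun M : RankMatroid n (j + 1) => (flatsOf M.1 j).ncard)
      (fun _ _ => Nat.zero_le _) ?_
    rw [Finset.mem_filter]
    exact ⟨hM, hnl⟩
  have har := arith (j + 1) r (fun d => (A d : ℤ)) hchain r le_rfl
  rw [sub_self, zero_mul, zero_mul, add_zero] at har
  have hsA := hsum (fun M => (flatsOf M.1 j).ncard)
  have hn : n - (j + 1) = r := by omega
  rw [hn, hsA]
  -- now pure arithmetic
  have e1 : ∑ d ∈ Finset.range (r + 1),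
      ((((j + 1 : ℕ) : ℤ) + 1) * (d + 1) - ((j + 1 : ℕ) : ℤ) * (r + 1)) * (A d : ℤ) =
      (((j + 1 : ℕ) : ℤ) + 1) * ∑ d ∈ Finset.range (r + 1), ((d : ℤ) + 1) * A d
        - ((j + 1 : ℕ) : ℤ) * (r + 1) * ∑ d ∈ Finset.range (r + 1), (A d : ℤ) := by
    rw [Finset.mul_sum, Finset.mul_sum, ← Finset.sum_sub_distrib]
    refine Finset.sum_congr rfl fun d _ => ?_
    ring
  rw [e1] at har
  have hb' : ∑ d ∈ Finset.range (r + 1), ((d : ℤ) + 1) * A d ≤
      ((∑ M ∈ 𝒩, numBases M.1 : ℕ) : ℤ) * (j + 1) := by exact_mod_cast hb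
  have htop' : ((j : ℤ) + 1) ≤ A 0 := by exact_mod_cast htop
  have goal : ((r : ℤ) + 1) * ((∑ d ∈ Finset.range (r + 1), A d : ℕ) + 1) ≤
      ((j : ℤ) + 1 + 1) * ((∑ M ∈ 𝒩, numBases M.1 : ℕ) : ℤ) := by
    push_cast at har hb' ⊢
    have hjpos : (0 : ℤ) < (j : ℤ) + 1 := by positivity
    have h5 := mul_le_mul_of_nonneg_left hb' (show (0 : ℤ) ≤ (j : ℤ) + 1 + 1 by positivity)
    have h6 := mul_le_mul_of_nonneg_left htop' (show (0 : ℤ) ≤ (r : ℤ) + 1 by positivity)
    refine le_of_mul_le_mul_left ?_ hjpos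
    nlinarith [har, h5, h6]
  exact_mod_cast goal

end Pool.Agent.Work.MP_f3d170_co_h45
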