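import Mathlib
import Pool.Agent.Work.MP_f3d170_co_h45.Main

set_option autoImplicit false

open Set Matroid

namespace Pool.Agent.Work.MP_f3d170_co_h45

variable {n : ℕ}

/-- Cocircuits are the complements of the flats of rank one less than the rank. -/
lemma cocircuit_iff {N : Matroid (Fin n)} (hE : N.E = Set.univ) {j : ℕ}
    (hr : N.eRank = (j + 1 : ℕ)) (K : Set (Fin n)) :
    N.IsCocircuit K ↔ Kᶜ ∈ flatsOf N j := by
  have hbc : ∀ B, N.IsBase B → B.ncard = j + 1 := by
    intro B hB
    have h := hB.encard_eq_eRank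
    rw [hr] at h
    simp only [Set.ncard, h]; rfl
  constructor
  · intro hK
    rw [isCocircuit_iff_minimal_compl_nonspanning] at hK
    simp only [hE, ← Set.compl_eq_univ_sdiff] at hK
    have hne : K.Nonempty := by
      by_contra hcon
      rw [Set.not_nonempty_iff_eq_empty] at hcon
      subst hcon
      apply hK.prop
      rw [Set.compl_empty, ← hE]
      exact N.ground_spanning
    have hins : ∀ x ∈ K, N.closure (insert x Kᶜ) = Set.univ := by
      intro x hx
      by_contra hcon
      have h1 : ¬ N.Spanning (K \ {x})ᶜ := by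
        intro hs
        apply hcon
        have h2 : (K \ {x})ᶜ = insert x Kᶜ := by
          ext y; simp only [Set.mem_compl_iff, Set.mem_sdiff, Set.mem_singleton_iff,
            Set.mem_insert_iff]; tauto
        rw [← h2, hs.closure_eq, hE]
      exact (hK.le_of_le h1 Set.sdiff_subset hx).2 rfl
    have hnsp : N.closure Kᶜ ≠ Set.univ := by
      intro h
      apply hK.prop
      rw [spanning_iff_closure_eq (by rw [hE]; exact Set.subset_univ _), h, hE]
    obtain ⟨I, hI⟩ := N.exists_isBasis Kᶜ (by rw [hE]; exact Set.subset_univ _)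
    obtain ⟨x, hx⟩ := hne
    have hxI : x ∉ I := fun h => hI.subset h hx
    have hxcl : x ∉ N.closure I := by
      intro h
      apply hnsp
      rw [← hins x hx, closure_insert_eq_of_mem_closure (hI.closure_eq_closure ▸ h)]
    have hB : N.IsBase (insert x I) := by
      refine Indep.isBase_of_ground_subset_closure ?_ ?_
      · rw [hI.indep.insert_indep_iff_of_notMem hxI]
        exact ⟨by rw [hE]; trivial, hxcl⟩
      · rw [hE, ← closure_insert_closure_eq_closure_insert, hI.closure_eq_closure,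
          closure_insert_closure_eq_closure_insert, hins x hx]
    refine ⟨I, hI.indep, ?_, ?_⟩
    · have := hbc _ hB
      rw [Set.ncard_insert_of_notMem hxI (Set.toFinite _)] at this
      omega
    · rw [hI.closure_eq_closure]
      refine Set.Subset.antisymm ?_ (N.subset_closure _ (by rw [hE]; exact Set.subset_univ _))
      intro y hy hyK
      apply hnsp
      rw [← hins y hyK, closure_insert_eq_of_mem_closure hy]
  · rintro ⟨I, hI, hIc, hIcl⟩
    have hex : ∃ x, x ∉ N.closure I := by
      by_contra hcon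
      push Not at hcon
      have : N.IsBase I := hI.isBase_of_ground_subset_closure (fun x _ => hcon x)
      have := hbc I this
      omega
    obtain ⟨x, hx⟩ := hex
    have hxI : x ∉ I := fun h => hx (N.subset_closure I hI.subset_ground h)
    have hB : N.IsBase (insert x I) := by
      refine Indep.isBase_of_eRk_ge ?_ (Set.toFinite _) ?_
      · rw [hI.insert_indep_iff_of_notMem hxI]
        exact ⟨by rw [hE]; trivial, hx⟩
      · rw [Indep.eRk_eq_encard, hr, ← (Set.toFinite (insert x I)).cast_ncard_eq,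
          Set.ncard_insert_of_notMem hxI (Set.toFinite _), hIc]
        rw [hI.insert_indep_iff_of_notMem hxI]
        exact ⟨by rw [hE]; trivial, hx⟩
    have := hB.compl_closure_sdiff_singleton_isCocircuit (Set.mem_insert x I)
    rwa [Set.insert_sdiff_self_of_notMem hxI, hIcl, hE, ← Set.compl_eq_univ_sdiff,
      compl_compl] at this

lemma numCircuits_dual {N : Matroid (Fin n)} (hE : N.E = Set.univ) {j : ℕ}
    (hr : N.eRank = (j + 1 : ℕ)) : numCircuits N✶ = (flatsOf N j).ncard := by
  rw [numCircuits]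
  have : {C | N✶.IsCircuit C} = compl '' flatsOf N j := by
    ext C
    rw [Set.mem_ofPred_eq, ← isCocircuit_def, cocircuit_iff hE hr, Set.mem_image]
    constructor
    · intro h; exact ⟨_, h, compl_compl C⟩
    · rintro ⟨F, hF, rfl⟩; rwa [compl_compl]
  rw [this, Set.ncard_image_of_injective _ compl_injective]

lemma numBases_dual {N : Matroid (Fin n)} (hE : N.E = Set.univ) :
    numBases N✶ = numBases N := by
  rw [numBases, numBases]
  have : {B | N✶.IsBase B} = compl '' {B | N.IsBase B} := by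
    ext B
    rw [Set.mem_ofPred_eq, dual_isBase_iff (by rw [hE]; exact Set.subset_univ _), Set.mem_image,
      hE, ← Set.compl_eq_univ_sdiff]
    constructor
    · intro h; exact ⟨_, h, compl_compl B⟩
    · rintro ⟨F, hF, rfl⟩; rwa [compl_compl]
  rw [this, Set.ncard_image_of_injective _ compl_injective]

/-- The dual matroid. -/
def dualRM {r k : ℕ} (hk : r + k = n) (M : RankMatroid n r) : RankMatroid n k :=
  ⟨M.1✶, M.2.1, by
    have h := M.1.eRank_add_eRank_dual
    rw [M.2.2, M.2.1, Set.encard_univ] at h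
    have h2 : ((r : ℕ∞)) + M.1✶.eRank = (r : ℕ∞) + k := by
      rw [h, ← hk]; simp
    exact WithTop.add_left_cancel (ENat.natCast_ne_top r) h2⟩

lemma dualRM_dualRM {r k : ℕ} (hk : r + k = n) (hk' : k + r = n) (M : RankMatroid n r) :
    dualRM hk' (dualRM hk M) = M := by
  apply Subtype.ext
  exact dual_dual M.1

lemma Iso.dual {M N : Matroid (Fin n)} (hM : M.E = Set.univ) (hN : N.E = Set.univ)
    (h : Iso M N) : Iso M✶ N✶ := by
  obtain ⟨σ, rfl⟩ := h.exists_map hM hN
  refine ⟨σ, fun I => ?_⟩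
  rw [mapEquiv_eq_map, map_dual, ← mapEquiv_eq_map, mapEquiv_indep_iff, ← Set.image_comp]
  simp

lemma IsTransversal.dual {r k : ℕ} (hk : r + k = n) {𝒩 : Finset (RankMatroid n r)}
    (h : IsTransversal 𝒩) : ∃ 𝒩' : Finset (RankMatroid n k), IsTransversal 𝒩' ∧
      ∀ f : RankMatroid n k → ℕ, ∑ N ∈ 𝒩', f N = ∑ M ∈ 𝒩, f (dualRM hk M) := by
  classical
  have hk' : k + r = n := by omega
  have hinj : Function.Injective (dualRM hk : RankMatroid n r → RankMatroid n k) := by
    intro M M' hMM'
    rw [← dualRM_dualRM hk hk' M, hMM', dualRM_dualRM]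
  refine ⟨𝒩.image (dualRM hk), ?_, fun f => Finset.sum_image (fun _ _ _ _ h => hinj h)⟩
  intro M
  obtain ⟨N, ⟨hN, hi⟩, hu⟩ := h (dualRM hk' M)
  refine ⟨dualRM hk N, ⟨Finset.mem_image_of_mem _ hN, ?_⟩, ?_⟩
  · have := hi.dual (dualRM hk' M).2.1 N.2.1
    simpa [dualRM] using this
  · rintro N' ⟨hN', hi'⟩
    obtain ⟨N'', hN'', rfl⟩ := Finset.mem_image.1 hN'
    congr 1
    refine hu N'' ⟨hN'', ?_⟩
    have := hi'.dual M.2.1 (dualRM hk N'').2.1
    simpa [dualRM] using this

instance (n r : ℕ) : Finite (RankMatroid n r) := by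
  have h : Finite {M : Matroid (Fin n) // M.E = Set.univ} :=
    Matroid.finite_setOfPred_matroid' (Set.toFinite (Set.univ : Set (Fin n)))
  exact Finite.of_injective
    (fun M : RankMatroid n r => (⟨M.1, M.2.1⟩ : {M : Matroid (Fin n) // M.E = Set.univ}))
    (fun M N h => Subtype.ext
      (congrArg (fun x : {M : Matroid (Fin n) // M.E = Set.univ} => x.1) h))

/-- There is a set with exactly one representative of each isomorphism class. -/
theorem exists_transversal (n r : ℕ) : ∃ 𝒩 : Finset (RankMatroid n r), IsTransversal 𝒩 := by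
  classical
  let s : Setoid (RankMatroid n r) :=
    ⟨fun M N => Iso M.1 N.1, fun M => Iso.refl _, fun h => h.symm, fun h h' => h.trans h'⟩
  let S : Set (RankMatroid n r) := Set.range (fun q : Quotient s => q.out)
  have hS : S.Finite := Set.toFinite S
  refine ⟨hS.toFinset, fun M => ?_⟩
  refine ⟨(Quotient.mk s M).out, ⟨?_, ?_⟩, ?_⟩
  · rw [Set.Finite.mem_toFinset]; exact ⟨_, rfl⟩
  · exact Iso.symm (Quotient.mk_out (s := s) M)
  · rintro N ⟨hN, hi⟩
    rw [Set.Finite.mem_toFinset] at hN
    obtain ⟨q, rfl⟩ := hN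
    have : q = Quotient.mk s M := by
      rw [← Quotient.out_eq q]
      exact (Quotient.sound (s := s) hi).symm
    rw [← this]

/-- In corank zero there are no circuits. -/
lemma numCircuits_top {n : ℕ} (M : RankMatroid n n) : numCircuits M.1 = 0 := by
  obtain ⟨B, hB⟩ := M.1.exists_isBase
  have hBn := base_ncard M hB
  have hBu : B = Set.univ := by
    refine Set.eq_of_subset_of_ncard_le (Set.subset_univ _) ?_ (Set.toFinite _)
    rw [Set.ncard_univ, Nat.card_fin, hBn]
  have : {C | M.1.IsCircuit C} = ∅ := by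
    ext C
    simp only [Set.mem_ofPred_eq, Set.mem_empty_iff_false, iff_false]
    intro hC
    exact hC.not_indep (hB.indep.subset (hBu ▸ Set.subset_univ _))
  rw [numCircuits, this, Set.ncard_empty]

lemma numBases_pos {n r : ℕ} (M : RankMatroid n r) : 0 < numBases M.1 := by
  obtain ⟨B, hB⟩ := M.1.exists_isBase
  exact (Set.ncard_pos (Set.toFinite _)).2 ⟨B, hB⟩

lemma nonempty_rankMatroid {n r : ℕ} (h : r ≤ n) : Nonempty (RankMatroid n r) := by
  obtain ⟨I, -, hI⟩ := Set.exists_subset_card_eq (s := (Set.univ : Set (Fin n))) (n := r)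
    (by rw [Set.ncard_univ, Nat.card_fin]; exact h)
  have hB : (uniqueBaseOn I Set.univ).IsBase I := by
    rw [uniqueBaseOn_isBase_iff (Set.subset_univ _)]
  refine ⟨⟨uniqueBaseOn I Set.univ, rfl, ?_⟩⟩
  rw [← hB.encard_eq_eRank, ← (Set.toFinite I).cast_ncard_eq, hI]

/-- The main inequality. -/
theorem main_ineq {n r : ℕ} (hrn : r < n) {𝒩 : Finset (RankMatroid n r)}
    (h : IsTransversal 𝒩) :
    (r + 1) * (∑ M ∈ 𝒩, numCircuits M.1 + 1) ≤ (n - r + 1) * ∑ M ∈ 𝒩, numBases M.1 := by
  obtain ⟨j, hj⟩ : ∃ j, n = r + (j + 1) := ⟨n - r - 1, by omega⟩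
  obtain ⟨𝒩', h', hs⟩ := h.dual (k := j + 1) hj.symm
  have h1 := dual_ineq (j := j) (by omega) h'
  rw [hs, hs] at h1
  have e1 : ∀ M : RankMatroid n r, (flatsOf (dualRM hj.symm M).1 j).ncard = numCircuits M.1 := by
    intro M
    rw [← numCircuits_dual (dualRM hj.symm M).2.1 (dualRM hj.symm M).2.2]
    simp [dualRM]
  have e2 : ∀ M : RankMatroid n r, numBases (dualRM hj.symm M).1 = numBases M.1 := by
    intro M
    exact numBases_dual M.2.1
  simp only [e1, e2] at h1
  have e3 : n - (j + 1) = r := by omega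
  have e4 : n - r = j + 1 := by omega
  rw [e3] at h1
  rw [e4]
  exact h1

/-- More bases than circuits when `n ≤ 2r`. -/
theorem main_lt {n r : ℕ} (hrn : r ≤ n) (h2 : n ≤ 2 * r) {𝒩 : Finset (RankMatroid n r)}
    (h : IsTransversal 𝒩) :
    ∑ M ∈ 𝒩, numCircuits M.1 < ∑ M ∈ 𝒩, numBases M.1 := by
  rcases hrn.lt_or_eq with hlt | heq
  · have h1 := main_ineq hlt h
    have h3 : n - r + 1 ≤ r + 1 := by omega
    have h4 : (n - r + 1) * ∑ M ∈ 𝒩, numBases M.1 ≤ (r + 1) * ∑ M ∈ 𝒩, numBases M.1 :=
      Nat.mul_le_mul_right _ h3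
    have h5 := Nat.le_of_mul_le_mul_left (h1.trans h4) (Nat.succ_pos r)
    omega
  · subst heq
    obtain ⟨M₀⟩ := nonempty_rankMatroid (le_refl r)
    obtain ⟨M, ⟨hM, -⟩, -⟩ := h M₀
    have hb : 0 < ∑ M ∈ 𝒩, numBases M.1 :=
      lt_of_lt_of_le (numBases_pos M)
        (Finset.single_le_sum (f := fun M : RankMatroid r r => numBases M.1)
          (fun _ _ => Nat.zero_le _) hM)
    have hc : ∑ M ∈ 𝒩, numCircuits M.1 = 0 :=
      Finset.sum_eq_zero fun M _ => numCircuits_top M
    omega

end Pool.Agent.Work.MP_f3d170_co_h45
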